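import Mathlib

/-!
# Pull-back of currents by meromorphic maps (MP_021b97_an): definitions

Compact complex manifolds presented as quotients `X = U / G` of an open subset `U` of `ℂ^N` by a
torus `G = (ℂ*)^r` acting linearly and diagonally; differential forms on `X` (basic forms on `U`),
currents of order zero, positivity, DSH currents, good approximation schemes, pull-back of forms by
a meromorphic map, Lelong numbers.
-/

set_option autoImplicit false

open MeasureTheory Filter Topology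

namespace Pool.Agent.SIP

/-! ## Alternating forms on `ℂ^N` -/

/-- Real valued, real multilinear alternating `k`-forms on `ℂ^N`. -/
abbrev Alt (N k : ℕ) : Type := (Fin N → ℂ) [⋀^Fin k]→L[ℝ] ℝ

theorem upd_left {E : Type} {k l : ℕ} [DecidableEq (Fin (k + l))] (m : Fin (k + l) → E)
    (i : Fin k) (z : E) :
    (fun j => Function.update m (Fin.castAdd l i) z (Fin.natAdd k j)) =
      (fun j => m (Fin.natAdd k j)) ∧
    (fun j => Function.update m (Fin.castAdd l i) z (Fin.castAdd l j)) =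
      Function.update (fun j => m (Fin.castAdd l j)) i z := by
  constructor
  · funext j
    rw [Function.update_of_ne]
    intro h
    have := congrArg Fin.val h
    simp at this
    omega
  · funext j
    by_cases h : j = i
    · subst h; simp
    · rw [Function.update_of_ne h, Function.update_of_ne]
      intro h'
      exact h (Fin.castAdd_injective k l h')

theorem upd_right {E : Type} {k l : ℕ} [DecidableEq (Fin (k + l))] (m : Fin (k + l) → E)
    (i : Fin l) (z : E) :
    (fun j => Function.update m (Fin.natAdd k i) z (Fin.castAdd l j)) =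
      (fun j => m (Fin.castAdd l j)) ∧
    (fun j => Function.update m (Fin.natAdd k i) z (Fin.natAdd k j)) =
      Function.update (fun j => m (Fin.natAdd k j)) i z := by
  constructor
  · funext j
    rw [Function.update_of_ne]
    intro h
    have := congrArg Fin.val h
    simp at this
    omega
  · funext j
    by_cases h : j = i
    · subst h; simp
    · rw [Function.update_of_ne h, Function.update_of_ne]
      intro h'
      exact h (Fin.natAdd_injective l k h')

/-- The product `(v₁, …, v_{k+l}) ↦ a (v₁, …, v_k) * b (v_{k+1}, …, v_{k+l})`. -/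
noncomputable def tensor {N k l : ℕ} (a : Alt N k) (b : Alt N l) :
    ContinuousMultilinearMap ℝ (fun _ : Fin (k + l) => (Fin N → ℂ)) ℝ where
  toFun v := a (fun i => v (Fin.castAdd l i)) * b (fun j => v (Fin.natAdd k j))
  map_update_add' := by
    intro _ m i x y
    refine Fin.addCases (fun i => ?_) (fun j => ?_) i
    · simp only [(upd_left m i _).1, (upd_left m i _).2, a.map_update_add, add_mul]
    · simp only [(upd_right m j _).1, (upd_right m j _).2, b.map_update_add, mul_add]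
  map_update_smul' := by
    intro _ m i c x
    refine Fin.addCases (fun i => ?_) (fun j => ?_) i
    · simp only [(upd_left m i _).1, (upd_left m i _).2, a.map_update_smul, smul_eq_mul]
      ring
    · simp only [(upd_right m j _).1, (upd_right m j _).2, b.map_update_smul, smul_eq_mul]
      ring
  cont := by
    refine Continuous.mul (a.cont.comp ?_) (b.cont.comp ?_) <;> fun_prop

/-- The wedge product
`(a ∧ b)(v) = (1 / (k! l!)) ∑_σ sign σ • a (v_{σ 1}, …, v_{σ k}) b (v_{σ (k+1)}, …)`. -/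
noncomputable def wedge {N k l : ℕ} (a : Alt N k) (b : Alt N l) : Alt N (k + l) :=
  ((k.factorial * l.factorial : ℕ) : ℝ)⁻¹ • (tensor a b).alternatization

/-- The constant `0`-form. -/
noncomputable def cst (N : ℕ) (c : ℝ) : Alt N 0 :=
  ContinuousAlternatingMap.constOfIsEmpty ℝ (Fin N → ℂ) (Fin 0) c

/-- Multiplication of vectors by the complex number `u`, as a real linear map. -/
noncomputable def mulC (N : ℕ) (u : ℂ) : (Fin N → ℂ) →L[ℝ] (Fin N → ℂ) :=
  (u • ContinuousLinearMap.id ℂ (Fin N → ℂ)).restrictScalars ℝ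

/-- `dd^c` of a form of bidegree `(p, p)`: `d^c φ = (dφ) ∘ J⁻¹ = - (dφ) ∘ J` (a form of odd degree),
so `dd^c φ = - d ((dφ) ∘ J)`; for functions `dd^c = 2 i ∂∂̄`. -/
noncomputable def ddc {N k : ℕ} (φ : (Fin N → ℂ) → Alt N k) (z : Fin N → ℂ) : Alt N (k + 1 + 1) :=
  - extDeriv (fun w => (extDeriv φ w).compContinuousLinearMap (mulC N Complex.I)) z

/-- The complex tangent tuple `(v₀, i v₀, v₁, i v₁, …)` -/
noncomputable def cvec {N : ℕ} (v : ℕ → Fin N → ℂ) (m : ℕ) : Fin m → Fin N → ℂ :=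
  fun i => if (i : ℕ) % 2 = 0 then v ((i : ℕ) / 2) else Complex.I • v ((i : ℕ) / 2)

/-- `a` is invariant under `v ↦ u v`, `|u| = 1`: a form of degree `2 p` with this property has
bidegree `(p, p)` -/
def Rot {N k : ℕ} (a : Alt N k) : Prop :=
  ∀ u : ℂ, ‖u‖ = 1 → ∀ v : Fin k → Fin N → ℂ, a (fun i => u • v i) = a v

/-- (Weak) positivity of a real form of degree `2 p`: it is nonnegative on complex subspaces. -/
def WPos {N : ℕ} (p : ℕ) (a : Alt N (2 * p)) : Prop :=
  ∀ v : ℕ → Fin N → ℂ, 0 ≤ a (cvec v (2 * p))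

/-- Strong positivity of a real form of degree `2 q`: it is a finite nonnegative combination of
pull-backs, by complex linear maps `(L₀, …, L_{q-1}) : ℂ^N → ℂ^q`, of the standard volume form
(the determinant) of `ℂ^q = ℝ^{2q}`, that is, of forms `(i/2) L₀ ∧ L̄₀ ∧ … `. -/
def SPos {N : ℕ} (q : ℕ) (b : Alt N (2 * q)) : Prop :=
  ∃ (m : ℕ) (c : Fin m → ℝ) (L : Fin m → ℕ → ((Fin N → ℂ) →ₗ[ℂ] ℂ)), (∀ l, 0 ≤ c l) ∧
    ∀ v : Fin (2 * q) → Fin N → ℂ, b v = ∑ l, c l * Matrix.det (fun i j : Fin (2 * q) =>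
      if (i : ℕ) % 2 = 0 then (L l ((i : ℕ) / 2) (v j)).re else (L l ((i : ℕ) / 2) (v j)).im)

/-- The two notions of positivity of a form of bidegree `(q, q)`: weak positivity (`w = true`) and
strong positivity (`w = false`).  They agree for `q = 0, 1, n - 1, n` in dimension `n`. -/
def FPos {N : ℕ} (w : Bool) (q : ℕ) (a : Alt N (2 * q)) : Prop :=
  if w = true then WPos q a ∧ Rot a else SPos q a

/-- The standard oriented real basis `e₀, i e₀, e₁, i e₁, …` of `ℂ^n` (first `m` vectors). -/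
noncomputable def stdb (n m : ℕ) : Fin m → Fin n → ℂ :=
  cvec (fun a => fun b : Fin n => if (b : ℕ) = a then 1 else 0) m

/-! ## The manifolds -/

/-- Data which present a compact complex manifold `X` of dimension `n` as a quotient `U / G`,
`U ⊂ ℂ^N` open, `G = (ℂ*)^r`. -/
structure Toric (N r n : ℕ) where
  /-- `c ∈ G` multiplies the coordinate `z m` by `∏ j, c j ^ wt m j` -/
  wt : Fin N → Fin r → ℤ
  /-- the coordinates are divided into `r` blocks, `z ∈ U` iff no block of `z` vanishes -/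
  blk : Fin N → Fin r
  /-- in the affine chart the coordinates `one j` are equal to `1` … -/
  one : Fin r → Fin N
  /-- … and the coordinates `crd i` are free -/
  crd : Fin n → Fin N
  /-- `log (A j)` are potentials of closed `(1,1)`-forms whose sum is the Kähler form -/
  A : Fin r → (Fin N → ℂ) → ℝ

namespace Toric

variable {N r n : ℕ} (X : Toric N r n)

/-- The open set `U` of homogeneous coordinates. -/
def U : Set (Fin N → ℂ) := {z | ∀ j, ∃ m, X.blk m = j ∧ z m ≠ 0}

/-- The action of `c` on points and on tangent vectors. -/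
noncomputable def act (c : Fin r → ℂ) (z : Fin N → ℂ) : Fin N → ℂ :=
  fun m => (∏ j, c j ^ X.wt m j) * z m

/-- Tangent vectors of the `G`-orbit of `z`. -/
def Vert (z v : Fin N → ℂ) : Prop :=
  ∃ a : Fin r → ℂ, ∀ m, v m = (∑ j, a j * X.wt m j) * z m

/-- The dense affine chart `ℂ^n → U → X`. -/
noncomputable def σ (x : Fin n → ℂ) : Fin N → ℂ :=
  fun m => (∑ i, if X.crd i = m then x i else 0) + ∑ j, if X.one j = m then 1 else 0

/-- `G`-invariant and horizontal at the points of the set `V`: these are the forms on `V / G`. -/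
def BasicOn {k : ℕ} (V : Set (Fin N → ℂ)) (ω : (Fin N → ℂ) → Alt N k) : Prop :=
  (∀ z ∈ V, ∀ c : Fin r → ℂ, (∀ j, c j ≠ 0) → ∀ v, ω (X.act c z) (fun i => X.act c (v i)) = ω z v) ∧
  (∀ z ∈ V, ∀ (v : Fin k → Fin N → ℂ) (i : Fin k), X.Vert z (v i) → ω z v = 0)

/-- A set of points which is `G`-invariant and open: an open subset of `X` (if it is in `U`). -/
def OpenInv (O : Set (Fin N → ℂ)) : Prop :=
  IsOpen O ∧ ∀ y ∈ O, ∀ c : Fin r → ℂ, (∀ j, c j ≠ 0) → X.act c y ∈ O

/-- Continuous `k`-forms on `X`: continuous basic forms on `U` (extended by zero). -/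
structure Form (k : ℕ) where
  /-- the form -/
  val : (Fin N → ℂ) → Alt N k
  /-- it is continuous -/
  cont : ContinuousOn val X.U
  /-- it is basic -/
  basic : X.BasicOn X.U val
  /-- extension by zero -/
  zero : ∀ z, z ∉ X.U → val z = 0

/-- Forms of class `C^s` on `X`. -/
def CDiff {k : ℕ} (s : ℕ) (ω : (Fin N → ℂ) → Alt N k) : Prop := ContDiffOn ℝ s ω X.U

/-- Smooth forms on `X`. -/
def Smooth {k : ℕ} (ω : (Fin N → ℂ) → Alt N k) : Prop := ContDiffOn ℝ ((⊤ : ℕ∞) : WithTop ℕ∞) ω X.U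

/-- The Kähler form `ω = ∑_j dd^c log A_j`. -/
noncomputable def kahler (z : Fin N → ℂ) : Alt N 2 :=
  ddc (fun w => cst N (∑ j, Real.log (X.A j w))) z

/-- The powers `ω^q` of the Kähler form. -/
noncomputable def kpow : (q : ℕ) → (Fin N → ℂ) → Alt N (2 * q)
  | 0, _ => cst N 1
  | q + 1, z => wedge (kpow q z) (X.kahler z)

/-- Pull-back of a form by a map `ℂ^n → ℂ^N`. -/
noncomputable def pull {k : ℕ} (g : (Fin n → ℂ) → Fin N → ℂ) (ω : (Fin N → ℂ) → Alt N k)
    (x : Fin n → ℂ) : Alt n k :=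
  (ω (g x)).compContinuousLinearMap (fderiv ℝ g x)

/-- `∫_X a ∧ b`, computed in the dense chart. -/
noncomputable def pair {k l : ℕ} (a : (Fin N → ℂ) → Alt N k) (b : (Fin N → ℂ) → Alt N l) : ℝ :=
  ∫ x : Fin n → ℂ, wedge (pull X.σ a x) (pull X.σ b x) (stdb n (k + l))

/-- Pull-back of forms by a meromorphic map `f : X ⇢ X`, as currents:
`⟨f^* a, b⟩ = ∫_{Γ_f} π₂^* a ∧ π₁^* b`.  Here `ft : ℂ^n → ℂ^N` is a lift of `f` restricted to the
dense chart, and the integral over the graph is computed over this chart. -/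
noncomputable def fpair {k l : ℕ} (ft : (Fin n → ℂ) → Fin N → ℂ) (a : (Fin N → ℂ) → Alt N k)
    (b : (Fin N → ℂ) → Alt N l) : ℝ :=
  ∫ x : Fin n → ℂ, wedge (pull ft a x) (pull X.σ b x) (stdb n (k + l))

/-! ## Currents -/

/-- Currents of order zero: linear functionals on continuous real forms of degree `2 q` (they are
required to be continuous in the definition of positive currents).  Positive currents, hence DSH
currents, have order zero, and they are determined by their values on smooth forms. -/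
structure Current (q : ℕ) where
  /-- the value of the current on a form -/
  val : X.Form (2 * q) → ℝ
  /-- additivity -/
  add : ∀ a b c : X.Form (2 * q), (∀ z, c.val z = a.val z + b.val z) → val c = val a + val b
  /-- homogeneity -/
  smul : ∀ (t : ℝ) (a b : X.Form (2 * q)), (∀ z, b.val z = t • a.val z) → val b = t * val a

/-- Sum of two currents. -/
noncomputable def add {q : ℕ} (S T : X.Current q) : X.Current q where
  val β := S.val β + T.val β
  add a b c h := by rw [S.add a b c h, T.add a b c h]; ring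
  smul t a b h := by rw [S.smul t a b h, T.smul t a b h]; ring

/-- Difference of two currents. -/
noncomputable def sub {q : ℕ} (S T : X.Current q) : X.Current q where
  val β := S.val β - T.val β
  add a b c h := by rw [S.add a b c h, T.add a b c h]; ring
  smul t a b h := by rw [S.smul t a b h, T.smul t a b h]; ring

/-- The opposite of a current. -/
noncomputable def neg {q : ℕ} (T : X.Current q) : X.Current q where
  val β := - T.val β
  add a b c h := by rw [T.add a b c h]; ring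
  smul t a b h := by rw [T.smul t a b h]; ring

/-- `T` has bidimension `(q, q)`: it only sees the component of bidegree `(q, q)`, the component
which is invariant under `v ↦ u v`, `|u| = 1`. -/
def IsBidim {q : ℕ} (T : X.Current q) : Prop :=
  ∀ u : ℂ, ‖u‖ = 1 → ∀ β β' : X.Form (2 * q),
    (∀ z ∈ X.U, ∀ v, β'.val z v = β.val z (fun i => u • v i)) → T.val β' = T.val β

/-- `T` is continuous: it is bounded by the supremum norm over a compact set of homogeneous
coordinates. -/
def IsCont {q : ℕ} (T : X.Current q) : Prop :=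
  ∃ (Q : Set (Fin N → ℂ)) (C : ℝ), IsCompact Q ∧ Q ⊆ X.U ∧
    ∀ (β : X.Form (2 * q)) (c : ℝ), (∀ z ∈ Q, ‖β.val z‖ ≤ c) → |T.val β| ≤ C * c

/-- Positive currents of bidimension `(q, q)`: weakly positive (`w = true`, nonnegative on strongly
positive forms) or strongly positive (`w = false`, nonnegative on weakly positive forms). -/
def Positive (w : Bool) {q : ℕ} (T : X.Current q) : Prop :=
  X.IsBidim T ∧ X.IsCont T ∧
    ∀ β : X.Form (2 * q), (∀ z ∈ X.U, FPos (!w) q (β.val z)) → 0 ≤ T.val β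

/-- `T` is closed: `T (dη) = 0` for all smooth forms `η` of degree `2 q - 1`. -/
def Closed {q : ℕ} (T : X.Current q) : Prop :=
  ∀ (k : ℕ) (hk : k + 1 = 2 * q) (η : X.Form k), X.Smooth η.val →
    ∀ β : X.Form (2 * q), (∀ z ∈ X.U, ∀ v : Fin (2 * q) → Fin N → ℂ,
      β.val z v = extDeriv η.val z (fun i => v (Fin.cast hk i))) → T.val β = 0

/-- `S = dd^c T`. -/
def IsDdc {q : ℕ} (T : X.Current (q + 1)) (S : X.Current q) : Prop :=
  X.IsBidim S ∧ ∀ φ : X.Form (2 * q), X.Smooth φ.val → (∀ z ∈ X.U, Rot (φ.val z)) →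
    ∀ β : X.Form (2 * (q + 1)), (∀ z ∈ X.U, β.val z = ddc φ.val z) → S.val φ = T.val β

/-- The mass `⟨T, ω^q⟩` of a positive current is at most `c`. -/
def MassLE {q : ℕ} (T : X.Current q) (c : ℝ) : Prop :=
  ∀ β : X.Form (2 * q), (∀ z ∈ X.U, β.val z = X.kpow q z) → T.val β ≤ c

/-- `T = T₁ - T₂` with `T_i` positive, `dd^c T_i = Ω_i⁺ - Ω_i⁻`, `Ω_i^±` positive closed, and
`‖T₁‖ + ‖T₂‖ + ‖Ω₁⁺‖ + ‖Ω₂⁺‖ ≤ c`: the DSH norm of `T` is at most `c`. -/
def DshNormLE (w : Bool) : {q : ℕ} → X.Current q → ℝ → Prop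
  | 0, T, c => ∃ T₁ T₂ : X.Current 0, T = X.sub T₁ T₂ ∧ X.Positive w T₁ ∧ X.Positive w T₂ ∧
      ∃ c₁ c₂ : ℝ, X.MassLE T₁ c₁ ∧ X.MassLE T₂ c₂ ∧ c₁ + c₂ ≤ c
  | q + 1, T, c => ∃ (T₁ T₂ : X.Current (q + 1)) (P₁ M₁ P₂ M₂ : X.Current q),
      T = X.sub T₁ T₂ ∧ X.Positive w T₁ ∧ X.Positive w T₂ ∧
      X.Positive w P₁ ∧ X.Positive w M₁ ∧ X.Positive w P₂ ∧ X.Positive w M₂ ∧
      X.Closed P₁ ∧ X.Closed M₁ ∧ X.Closed P₂ ∧ X.Closed M₂ ∧
      X.IsDdc T₁ (X.sub P₁ M₁) ∧ X.IsDdc T₂ (X.sub P₂ M₂) ∧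
      ∃ c₁ c₂ c₃ c₄ : ℝ, X.MassLE T₁ c₁ ∧ X.MassLE T₂ c₂ ∧ X.MassLE P₁ c₃ ∧ X.MassLE P₂ c₄ ∧
        c₁ + c₂ + c₃ + c₄ ≤ c

/-- DSH currents. -/
def IsDsh (w : Bool) {q : ℕ} (T : X.Current q) : Prop := ∃ c : ℝ, X.DshNormLE w T c

/-- The support of a current, as a subset of `U`. -/
def supp {q : ℕ} (T : X.Current q) : Set (Fin N → ℂ) :=
  {z | z ∈ X.U ∧ ∀ O : Set (Fin N → ℂ), X.OpenInv O → z ∈ O →
    ∃ β : X.Form (2 * q), (∀ w, w ∉ O → β.val w = 0) ∧ T.val β ≠ 0}

/-- The support of a form, as a subset of `U`. -/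
def fsupp {k : ℕ} (ω : (Fin N → ℂ) → Alt N k) : Set (Fin N → ℂ) :=
  X.U ∩ closure {z | z ∈ X.U ∧ ω z ≠ 0}

/-- The Lelong number of `T` at the point of `X` with homogeneous coordinates `u` is zero: the mass
of `T` in the ball of radius `ρ` is `o(ρ^{2q})`. -/
def LelongZero {q : ℕ} (T : X.Current q) (u : Fin N → ℂ) : Prop :=
  ∀ ε > 0, ∃ ρ₀ > 0, ∀ ρ : ℝ, 0 < ρ → ρ < ρ₀ → ∀ h : (Fin N → ℂ) → ℝ,
    (∀ z ∈ X.U, 0 ≤ h z ∧ h z ≤ 1) →
    (∀ z ∈ X.U, h z ≠ 0 → ∃ c : Fin r → ℂ, (∀ j, c j ≠ 0) ∧ ‖X.act c z - u‖ < ρ) →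
    ∀ β : X.Form (2 * q), (∀ z ∈ X.U, β.val z = h z • X.kpow q z) → T.val β ≤ ε * ρ ^ (2 * q)

/-- `T` is given on the open subset `O` by the continuous form `τ`. -/
def EqFormOn {p q : ℕ} (T : X.Current q) (O : Set (Fin N → ℂ))
    (τ : (Fin N → ℂ) → Alt N (2 * p)) : Prop :=
  ContinuousOn τ (X.U ∩ O) ∧ X.BasicOn (X.U ∩ O) τ ∧
    ∀ β : X.Form (2 * q), X.fsupp β.val ⊆ O → T.val β = X.pair τ β.val

/-- The difference of two forms, as a function on `U` -/
noncomputable def diff {k : ℕ} (a b : X.Form k) : (Fin N → ℂ) → Alt N k := fun z => a.val z - b.val z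

/-! ## Good approximation schemes -/

/-- A good approximation scheme by `C^s` forms (Dinh–Sibony), for the notion of positivity `w`.
`K true` is `K⁺`, `K false` is `K⁻`. -/
structure Scheme (w : Bool) (s : ℕ) where
  /-- the forms `K_n^±(T)`, of bidegree `(p, p)`, for `T` of bidimension `(q, q)`, `p + q = dim` -/
  K : Bool → (p q : ℕ) → X.Current q → ℕ → X.Form (2 * p)
  /-- they are of class `C^s` -/
  smooth : ∀ (b : Bool) (p q : ℕ), p + q = n → ∀ T : X.Current q, X.IsDsh w T → ∀ i,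
    X.CDiff s (K b p q T i).val
  /-- they have bidegree `(p, p)` -/
  bideg : ∀ (b : Bool) (p q : ℕ), p + q = n → ∀ T : X.Current q, X.IsDsh w T → ∀ i,
    ∀ z ∈ X.U, Rot ((K b p q T i).val z)
  /-- `K_n(T) = K_n⁺(T) - K_n⁻(T)` converges to `T` -/
  conv : ∀ p q : ℕ, p + q = n → ∀ T : X.Current q, X.IsDsh w T → ∀ β : X.Form (2 * q),
    X.Smooth β.val →
    Tendsto (fun i => X.pair (X.diff (K true p q T i) (K false p q T i)) β.val) atTop
      (𝓝 (T.val β))
  /-- (1) `K_n^±(T)` is bounded in DSH norm -/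
  p1 : ∀ (b : Bool) (p q : ℕ), p + q = n → ∀ T : X.Current q, X.IsDsh w T → ∃ c : ℝ, ∀ i,
    ∃ S : X.Current q, (∀ β, S.val β = X.pair (K b p q T i).val β.val) ∧ X.DshNormLE w S c
  /-- (2) if `T` is positive then `K_n^±(T)` is positive and its mass is bounded -/
  p2 : ∀ (b : Bool) (p q : ℕ), p + q = n → ∀ T : X.Current q, X.IsDsh w T → X.Positive w T →
    (∀ i, ∀ z ∈ X.U, FPos w p ((K b p q T i).val z)) ∧
    ∃ c : ℝ, ∀ i, X.pair (K b p q T i).val (X.kpow q) ≤ c
  /-- (3) if `T` is positive and closed then `K_n^±(T)` is closed (and positive by (2)) -/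
  p3 : ∀ (b : Bool) (p q : ℕ), p + q = n → ∀ T : X.Current q, X.Positive w T → X.Closed T →
    ∀ i, ∀ z ∈ X.U, extDeriv (K b p q T i).val z = 0
  /-- (4) `K_n^±(T)` converges locally uniformly on every open set where `T` is a continuous form -/
  p4 : ∀ (b : Bool) (p q : ℕ), p + q = n → ∀ T : X.Current q, X.IsDsh w T →
    ∀ O : Set (Fin N → ℂ), X.OpenInv O →
    ∀ τ : (Fin N → ℂ) → Alt N (2 * p), X.EqFormOn T O τ →
    ∃ τ' : (Fin N → ℂ) → Alt N (2 * p),
      TendstoLocallyUniformlyOn (fun i => (K b p q T i).val) τ' atTop (X.U ∩ O)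
  /-- (5) `K_n^±` is additive -/
  p5 : ∀ (b : Bool) (p q : ℕ), p + q = n → ∀ T S : X.Current q, X.IsDsh w T → X.IsDsh w S →
    ∀ i z, (K b p q (X.add T S) i).val z = (K b p q T i).val z + (K b p q S i).val z
  /-- (6) `∫ K_n(T) ∧ S - ∫ T ∧ K_n(S) → 0` for `S`, `T` of complementary bidegrees -/
  p6 : ∀ p q : ℕ, p + q = n → ∀ (T : X.Current q) (S : X.Current p), X.IsDsh w T → X.IsDsh w S →
    Tendsto (fun i => (S.val (K true p q T i) - S.val (K false p q T i)) -
      (T.val (K true q p S i) - T.val (K false q p S i))) atTop (𝓝 0)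
  /-- (7) `dd^c K_n^±(T) = K_n^±(dd^c T)` -/
  p7 : ∀ (b : Bool) (p q : ℕ), p + (q + 1) = n → ∀ (T : X.Current (q + 1)) (S : X.Current q),
    X.IsDsh w T → X.IsDsh w S → X.IsDdc T S → ∀ i, ∀ z ∈ X.U,
    ddc (K b p (q + 1) T i).val z = (K b (p + 1) q S i).val z
  /-- (8) the support of `K_n(T)` is in a given neighbourhood of the support `A` of `T` for
  `n ≥ n₀`, where `n₀` depends only on `A` and on the neighbourhood -/
  p8 : ∀ p q : ℕ, p + q = n → ∀ A O : Set (Fin N → ℂ), X.OpenInv O → A ⊆ O →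
    ∃ i₀ : ℕ, ∀ T : X.Current q, X.IsDsh w T → X.supp T = A → ∀ i ≥ i₀,
      X.fsupp (X.diff (K true p q T i) (K false p q T i)) ⊆ O

/-- `f^♯(T) = S`: for some `s`, `f^*(K_n(T)) → S` for every good approximation scheme by
`C^{s+2}` forms.  `ft` is a lift of `f` to homogeneous coordinates. -/
def Sharp (w : Bool) {q : ℕ} (ft : (Fin n → ℂ) → Fin N → ℂ) (T S : X.Current q) : Prop :=
  ∃ s : ℕ, ∀ K : X.Scheme w (s + 2), ∀ β : X.Form (2 * q), X.Smooth β.val →
    Tendsto (fun i => X.fpair ft (X.diff (K.K true (n - q) q T i) (K.K false (n - q) q T i)) β.val)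
      atTop (𝓝 (S.val β))

end Toric

end Pool.Agent.SIP
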