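import Pool.Agent.Helper15_SIP.Defs
import Pool.Agent.Helper15_SIU.Defs

/-!
# Translation between the two presentations of the definitions (MP_021b97_an)
-/

set_option autoImplicit false

open MeasureTheory Filter Topology

namespace Pool.Agent.SIP

theorem wedge_eq {N k l : ℕ} (a : Alt N k) (b : Alt N l) : wedge a b = SIU.wedge a b := rfl

theorem ddc_eq {N k : ℕ} (φ : (Fin N → ℂ) → Alt N k) : ddc φ = SIU.ddc φ := rfl

theorem fpos_iff {N : ℕ} (w : Bool) (q : ℕ) (a : Alt N (2 * q)) : SIU.FPos w q a ↔ FPos w q a :=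
  Iff.rfl

namespace Toric

variable {N r n : ℕ} (X : Toric N r n)

/-- the same data -/
def old : SIU.Toric N r n := ⟨X.wt, X.blk, X.one, X.crd, X.A⟩

theorem U_old : X.old.U = X.U := rfl

/-- conversion of forms -/
def fo {k : ℕ} (β : X.Form k) : X.old.Form k := ⟨β.val, β.cont, β.basic, β.zero⟩

/-- conversion of forms -/
def fn {k : ℕ} (β : X.old.Form k) : X.Form k := ⟨β.1, β.2.1, β.2.2.1, β.2.2.2⟩

theorem fo_fn {k : ℕ} (β : X.old.Form k) : X.fo (X.fn β) = β := rfl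
theorem fn_fo {k : ℕ} (β : X.Form k) : X.fn (X.fo β) = β := rfl

/-- conversion of currents -/
noncomputable def co {q : ℕ} (T : X.Current q) : X.old.Current q where
  toFun β := T.val (X.fn β)
  map_add' a b := T.add _ _ _ fun _ => rfl
  map_smul' t a := T.smul t _ _ fun _ => rfl

/-- conversion of currents -/
noncomputable def cn {q : ℕ} (T : X.old.Current q) : X.Current q where
  val β := T (X.fo β)
  add a b c h := by
    have : X.fo c = X.fo a + X.fo b := Subtype.ext (funext h)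
    rw [this, map_add]
  smul t a b h := by
    have : X.fo b = t • X.fo a := Subtype.ext (funext h)
    rw [this, map_smul, smul_eq_mul]

theorem cur_ext {q : ℕ} {S T : X.Current q} (h : ∀ β, S.val β = T.val β) : S = T := by
  cases S; cases T
  congr
  funext β
  exact h β

theorem co_cn {q : ℕ} (T : X.old.Current q) : X.co (X.cn T) = T := LinearMap.ext fun _ => rfl
theorem cn_co {q : ℕ} (T : X.Current q) : X.cn (X.co T) = T := X.cur_ext fun _ => rfl

theorem co_inj {q : ℕ} {S T : X.Current q} (h : X.co S = X.co T) : S = T := by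
  rw [← X.cn_co S, h, X.cn_co]

theorem co_sub {q : ℕ} (S T : X.Current q) : X.co (X.sub S T) = X.co S - X.co T :=
  LinearMap.ext fun _ => rfl

theorem co_add {q : ℕ} (S T : X.Current q) : X.co (X.add S T) = X.co S + X.co T :=
  LinearMap.ext fun _ => rfl

theorem co_neg {q : ℕ} (T : X.Current q) : X.co (X.neg T) = - X.co T :=
  LinearMap.ext fun _ => rfl

theorem cn_neg {q : ℕ} (T : X.old.Current q) : X.cn (-T) = X.neg (X.cn T) :=
  X.cur_ext fun _ => rfl

theorem cn_sub {q : ℕ} (S T : X.old.Current q) : X.cn (S - T) = X.sub (X.cn S) (X.cn T) :=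
  X.cur_ext fun _ => rfl

theorem cn_add {q : ℕ} (S T : X.old.Current q) : X.cn (S + T) = X.add (X.cn S) (X.cn T) :=
  X.cur_ext fun _ => rfl

theorem kpow_eq (q : ℕ) (z : Fin N → ℂ) : X.old.kpow q z = X.kpow q z := by
  induction q with
  | zero => rfl
  | succ q ih =>
    show SIU.wedge (X.old.kpow q z) (X.old.kahler z) = wedge (X.kpow q z) (X.kahler z)
    rw [ih]
    rfl

theorem pair_eq {k l : ℕ} (a : (Fin N → ℂ) → Alt N k) (b : (Fin N → ℂ) → Alt N l) :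
    X.old.pair a b = X.pair a b := rfl

theorem fpair_eq {k l : ℕ} (ft : (Fin n → ℂ) → Fin N → ℂ) (a : (Fin N → ℂ) → Alt N k)
    (b : (Fin N → ℂ) → Alt N l) : X.old.fpair ft a b = X.fpair ft a b := rfl

theorem isBidim_iff {q : ℕ} (T : X.Current q) : X.old.IsBidim (X.co T) ↔ X.IsBidim T :=
  ⟨fun h u hu β β' hb => h u hu (X.fo β) (X.fo β') hb,
    fun h u hu β β' hb => h u hu (X.fn β) (X.fn β') hb⟩

theorem isCont_iff {q : ℕ} (T : X.Current q) : X.old.IsCont (X.co T) ↔ X.IsCont T :=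
  ⟨fun ⟨Q, C, h1, h2, h3⟩ => ⟨Q, C, h1, h2, fun β c hb => h3 (X.fo β) c hb⟩,
    fun ⟨Q, C, h1, h2, h3⟩ => ⟨Q, C, h1, h2, fun β c hb => h3 (X.fn β) c hb⟩⟩

theorem positive_iff (w : Bool) {q : ℕ} (T : X.Current q) :
    X.old.Positive w (X.co T) ↔ X.Positive w T := by
  unfold SIU.Toric.Positive Positive
  rw [X.isBidim_iff, X.isCont_iff]
  exact and_congr_right fun _ => and_congr_right fun _ =>
    ⟨fun h β hb => h (X.fo β) hb, fun h β hb => h (X.fn β) hb⟩

theorem closed_iff {q : ℕ} (T : X.Current q) : X.old.ClosedCur (X.co T) ↔ X.Closed T :=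
  ⟨fun h k hk η hη β hb => h k hk (X.fo η) hη (X.fo β) hb,
    fun h k hk η hη β hb => h k hk (X.fn η) hη (X.fn β) hb⟩

theorem isDdc_iff {q : ℕ} (T : X.Current (q + 1)) (S : X.Current q) :
    X.old.IsDdc (X.co T) (X.co S) ↔ X.IsDdc T S := by
  unfold SIU.Toric.IsDdc IsDdc
  rw [X.isBidim_iff]
  exact and_congr_right fun _ =>
    ⟨fun h φ hφ hr β hb => h (X.fo φ) hφ hr (X.fo β) hb,
      fun h φ hφ hr β hb => h (X.fn φ) hφ hr (X.fn β) hb⟩

theorem massLE_iff {q : ℕ} (T : X.Current q) (c : ℝ) :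
    X.old.MassLE (X.co T) c ↔ X.MassLE T c :=
  ⟨fun h β hb => h (X.fo β) fun z hz => (hb z hz).trans (X.kpow_eq q z).symm,
    fun h β hb => h (X.fn β) fun z hz => (hb z hz).trans (X.kpow_eq q z)⟩

theorem dshNormLE_iff (w : Bool) {q : ℕ} (T : X.Current q) (c : ℝ) :
    X.old.DshNormLE w (X.co T) c ↔ X.DshNormLE w T c := by
  cases q with
  | zero =>
    constructor
    · rintro ⟨T₁, T₂, h1, h2, h3, c₁, c₂, h4, h5, h6⟩
      refine ⟨X.cn T₁, X.cn T₂, ?_, ?_, ?_, c₁, c₂, ?_, ?_, h6⟩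
      · rw [← X.cn_sub, ← h1, X.cn_co]
      · rw [← X.positive_iff, X.co_cn]; exact h2
      · rw [← X.positive_iff, X.co_cn]; exact h3
      · rw [← X.massLE_iff, X.co_cn]; exact h4
      · rw [← X.massLE_iff, X.co_cn]; exact h5
    · rintro ⟨T₁, T₂, h1, h2, h3, c₁, c₂, h4, h5, h6⟩
      refine ⟨X.co T₁, X.co T₂, ?_, ?_, ?_, c₁, c₂, ?_, ?_, h6⟩
      · rw [← X.co_sub, ← h1]
      · rw [X.positive_iff]; exact h2
      · rw [X.positive_iff]; exact h3
      · rw [X.massLE_iff]; exact h4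
      · rw [X.massLE_iff]; exact h5
  | succ q =>
    constructor
    · rintro ⟨T₁, T₂, P₁, M₁, P₂, M₂, h1, h2, h3, p1, m1, p2, m2, cp1, cm1, cp2, cm2, d1, d2,
        c₁, c₂, c₃, c₄, a1, a2, a3, a4, a5⟩
      refine ⟨X.cn T₁, X.cn T₂, X.cn P₁, X.cn M₁, X.cn P₂, X.cn M₂, ?_, ?_, ?_, ?_, ?_, ?_, ?_,
        ?_, ?_, ?_, ?_, ?_, ?_, c₁, c₂, c₃, c₄, ?_, ?_, ?_, ?_, a5⟩
      · rw [← X.cn_sub, ← h1, X.cn_co]
      · rw [← X.positive_iff, X.co_cn]; exact h2
      · rw [← X.positive_iff, X.co_cn]; exact h3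
      · rw [← X.positive_iff, X.co_cn]; exact p1
      · rw [← X.positive_iff, X.co_cn]; exact m1
      · rw [← X.positive_iff, X.co_cn]; exact p2
      · rw [← X.positive_iff, X.co_cn]; exact m2
      · rw [← X.closed_iff, X.co_cn]; exact cp1
      · rw [← X.closed_iff, X.co_cn]; exact cm1
      · rw [← X.closed_iff, X.co_cn]; exact cp2
      · rw [← X.closed_iff, X.co_cn]; exact cm2
      · rw [← X.isDdc_iff, X.co_sub, X.co_cn, X.co_cn, X.co_cn]; exact d1
      · rw [← X.isDdc_iff, X.co_sub, X.co_cn, X.co_cn, X.co_cn]; exact d2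
      · rw [← X.massLE_iff, X.co_cn]; exact a1
      · rw [← X.massLE_iff, X.co_cn]; exact a2
      · rw [← X.massLE_iff, X.co_cn]; exact a3
      · rw [← X.massLE_iff, X.co_cn]; exact a4
    · rintro ⟨T₁, T₂, P₁, M₁, P₂, M₂, h1, h2, h3, p1, m1, p2, m2, cp1, cm1, cp2, cm2, d1, d2,
        c₁, c₂, c₃, c₄, a1, a2, a3, a4, a5⟩
      refine ⟨X.co T₁, X.co T₂, X.co P₁, X.co M₁, X.co P₂, X.co M₂, ?_, ?_, ?_, ?_, ?_, ?_, ?_,
        ?_, ?_, ?_, ?_, ?_, ?_, c₁, c₂, c₃, c₄, ?_, ?_, ?_, ?_, a5⟩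
      · rw [← X.co_sub, ← h1]
      · rw [X.positive_iff]; exact h2
      · rw [X.positive_iff]; exact h3
      · rw [X.positive_iff]; exact p1
      · rw [X.positive_iff]; exact m1
      · rw [X.positive_iff]; exact p2
      · rw [X.positive_iff]; exact m2
      · rw [X.closed_iff]; exact cp1
      · rw [X.closed_iff]; exact cm1
      · rw [X.closed_iff]; exact cp2
      · rw [X.closed_iff]; exact cm2
      · rw [← X.co_sub, X.isDdc_iff]; exact d1
      · rw [← X.co_sub, X.isDdc_iff]; exact d2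
      · rw [X.massLE_iff]; exact a1
      · rw [X.massLE_iff]; exact a2
      · rw [X.massLE_iff]; exact a3
      · rw [X.massLE_iff]; exact a4

theorem isDsh_iff (w : Bool) {q : ℕ} (T : X.Current q) : X.old.IsDsh w (X.co T) ↔ X.IsDsh w T :=
  exists_congr fun c => X.dshNormLE_iff w T c

theorem openInv_iff (O : Set (Fin N → ℂ)) : X.OpenInv O ↔
    IsOpen O ∧ ∀ y ∈ O, ∀ c : Fin r → ℂ, (∀ j, c j ≠ 0) → X.old.act c y ∈ O := Iff.rfl

theorem supp_eq {q : ℕ} (T : X.Current q) : X.old.supp (X.co T) = X.supp T := by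
  ext z
  constructor
  · rintro ⟨hz, h⟩
    refine ⟨hz, fun O hO hzO => ?_⟩
    obtain ⟨β, h1, h2⟩ := h O hO.1 hzO hO.2
    exact ⟨X.fn β, h1, h2⟩
  · rintro ⟨hz, h⟩
    refine ⟨hz, fun O hO hzO hinv => ?_⟩
    obtain ⟨β, h1, h2⟩ := h O ⟨hO, hinv⟩ hzO
    exact ⟨X.fo β, h1, h2⟩

theorem fsupp_eq {k : ℕ} (ω : (Fin N → ℂ) → Alt N k) : X.old.fsupp ω = X.fsupp ω := rfl

theorem lelongZero_iff {q : ℕ} (T : X.Current q) (u : Fin N → ℂ) :
    X.old.LelongZero (X.co T) u ↔ X.LelongZero T u := by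
  constructor
  · intro h ε hε
    obtain ⟨ρ₀, h0, h1⟩ := h ε hε
    refine ⟨ρ₀, h0, fun ρ h2 h3 f hf1 hf2 β hb => h1 ρ h2 h3 f hf1 hf2 (X.fo β) fun z hz => ?_⟩
    rw [X.kpow_eq]; exact hb z hz
  · intro h ε hε
    obtain ⟨ρ₀, h0, h1⟩ := h ε hε
    refine ⟨ρ₀, h0, fun ρ h2 h3 f hf1 hf2 β hb => h1 ρ h2 h3 f hf1 hf2 (X.fn β) fun z hz => ?_⟩
    rw [← X.kpow_eq]; exact hb z hz

theorem eqFormOn_iff {p q : ℕ} (T : X.Current q) (O : Set (Fin N → ℂ))
    (τ : (Fin N → ℂ) → Alt N (2 * p)) : X.old.EqFormOn (X.co T) O τ ↔ X.EqFormOn T O τ :=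
  and_congr_right fun _ => and_congr_right fun _ =>
    ⟨fun h β hb => h (X.fo β) hb, fun h β hb => h (X.fn β) hb⟩

theorem app_sub {q : ℕ} (T : X.old.Current q) (a b : X.old.Form (2 * q)) :
    T (a - b) = T a - T b := LinearMap.map_sub T a b

theorem kpow_fun (q : ℕ) : X.old.kpow q = X.kpow q := funext (X.kpow_eq q)

/-- from the new presentation to the old one -/
noncomputable def schemeOld {w : Bool} {s : ℕ} (K : X.Scheme w s) : X.old.Scheme w s where
  K b p q T i := X.fo (K.K b p q (X.cn T) i)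
  smooth b p q h T hT i := K.smooth b p q h (X.cn T) ((X.isDsh_iff w _).1 (by rwa [X.co_cn])) i
  bideg b p q h T hT i := K.bideg b p q h (X.cn T) ((X.isDsh_iff w _).1 (by rwa [X.co_cn])) i
  conv p q h T hT β hβ :=
    K.conv p q h (X.cn T) ((X.isDsh_iff w _).1 (by rwa [X.co_cn])) (X.fn β) hβ
  p1 b p q h T hT := by
    obtain ⟨c, hc⟩ := K.p1 b p q h (X.cn T) ((X.isDsh_iff w _).1 (by rwa [X.co_cn]))
    refine ⟨c, fun i => ?_⟩
    obtain ⟨S, h1, h2⟩ := hc i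
    exact ⟨X.co S, fun β => h1 (X.fn β), (X.dshNormLE_iff w S c).2 h2⟩
  p2 b p q h T hT hp := by
    obtain ⟨h1, c, h2⟩ := K.p2 b p q h (X.cn T) ((X.isDsh_iff w _).1 (by rwa [X.co_cn]))
      ((X.positive_iff w _).1 (by rwa [X.co_cn]))
    refine ⟨h1, c, fun i => ?_⟩
    rw [X.kpow_fun]
    exact h2 i
  p3 b p q h T hp hc := K.p3 b p q h (X.cn T) ((X.positive_iff w _).1 (by rwa [X.co_cn]))
      ((X.closed_iff _).1 (by rwa [X.co_cn]))
  p4 b p q h T hT O hO hinv τ hτ := K.p4 b p q h (X.cn T) ((X.isDsh_iff w _).1 (by rwa [X.co_cn]))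
      O ⟨hO, hinv⟩ τ ((X.eqFormOn_iff _ O τ).1 (by rwa [X.co_cn]))
  p5 b p q h T S hT hS i := by
    refine Subtype.ext (funext fun z => ?_)
    have := K.p5 b p q h (X.cn T) (X.cn S) ((X.isDsh_iff w _).1 (by rwa [X.co_cn]))
      ((X.isDsh_iff w _).1 (by rwa [X.co_cn])) i z
    rw [← X.cn_add] at this
    exact this
  p6 p q h T S hT hS := by
    have := K.p6 p q h (X.cn T) (X.cn S) ((X.isDsh_iff w _).1 (by rwa [X.co_cn]))
      ((X.isDsh_iff w _).1 (by rwa [X.co_cn]))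
    refine this.congr fun i => ?_
    rw [X.app_sub S, X.app_sub T]
    rfl
  p7 b p q h T S hT hS hd i z hz := K.p7 b p q h (X.cn T) (X.cn S)
      ((X.isDsh_iff w _).1 (by rwa [X.co_cn])) ((X.isDsh_iff w _).1 (by rwa [X.co_cn]))
      ((X.isDdc_iff _ _).1 (by rwa [X.co_cn, X.co_cn])) i z hz
  p8 p q h A O hO hinv hA := by
    obtain ⟨i₀, hi₀⟩ := K.p8 p q h A O ⟨hO, hinv⟩ hA
    refine ⟨i₀, fun T hT hs i hi => ?_⟩
    exact hi₀ (X.cn T) ((X.isDsh_iff w _).1 (by rwa [X.co_cn]))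
      (by rw [← X.supp_eq, X.co_cn]; exact hs) i hi

/-- from the old presentation to the new one -/
noncomputable def schemeNew {w : Bool} {s : ℕ} (K : X.old.Scheme w s) : X.Scheme w s where
  K b p q T i := X.fn (K.K b p q (X.co T) i)
  smooth b p q h T hT i := K.smooth b p q h (X.co T) ((X.isDsh_iff w _).2 hT) i
  bideg b p q h T hT i := K.bideg b p q h (X.co T) ((X.isDsh_iff w _).2 hT) i
  conv p q h T hT β hβ := K.conv p q h (X.co T) ((X.isDsh_iff w _).2 hT) (X.fo β) hβ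
  p1 b p q h T hT := by
    obtain ⟨c, hc⟩ := K.p1 b p q h (X.co T) ((X.isDsh_iff w _).2 hT)
    refine ⟨c, fun i => ?_⟩
    obtain ⟨S, h1, h2⟩ := hc i
    refine ⟨X.cn S, fun β => h1 (X.fo β), (X.dshNormLE_iff w _ c).1 ?_⟩
    rwa [X.co_cn]
  p2 b p q h T hT hp := by
    obtain ⟨h1, c, h2⟩ := K.p2 b p q h (X.co T) ((X.isDsh_iff w _).2 hT)
      ((X.positive_iff w _).2 hp)
    refine ⟨h1, c, fun i => ?_⟩
    rw [← X.kpow_fun]
    exact h2 i
  p3 b p q h T hp hc := K.p3 b p q h (X.co T) ((X.positive_iff w _).2 hp) ((X.closed_iff _).2 hc)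
  p4 b p q h T hT O hO τ hτ := K.p4 b p q h (X.co T) ((X.isDsh_iff w _).2 hT)
      O hO.1 hO.2 τ ((X.eqFormOn_iff _ O τ).2 hτ)
  p5 b p q h T S hT hS i z := by
    have := K.p5 b p q h (X.co T) (X.co S) ((X.isDsh_iff w _).2 hT) ((X.isDsh_iff w _).2 hS) i
    rw [← X.co_add] at this
    exact congrFun (congrArg Subtype.val this) z
  p6 p q h T S hT hS := by
    have := K.p6 p q h (X.co T) (X.co S) ((X.isDsh_iff w _).2 hT) ((X.isDsh_iff w _).2 hS)
    refine this.congr fun i => ?_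
    rw [X.app_sub (X.co S), X.app_sub (X.co T)]
    rfl
  p7 b p q h T S hT hS hd i z hz := K.p7 b p q h (X.co T) (X.co S)
      ((X.isDsh_iff w _).2 hT) ((X.isDsh_iff w _).2 hS) ((X.isDdc_iff _ _).2 hd) i z hz
  p8 p q h A O hO hA := by
    obtain ⟨i₀, hi₀⟩ := K.p8 p q h A O hO.1 hO.2 hA
    refine ⟨i₀, fun T hT hs i hi => ?_⟩
    exact hi₀ (X.co T) ((X.isDsh_iff w _).2 hT) (by rw [X.supp_eq]; exact hs) i hi

theorem sharp_iff (w : Bool) {q : ℕ} (ft : (Fin n → ℂ) → Fin N → ℂ) (T S : X.Current q) :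
    X.old.Sharp w ft (X.co T) (X.co S) ↔ X.Sharp w ft T S := by
  constructor
  · rintro ⟨s, hs⟩
    refine ⟨s, fun K β hβ => ?_⟩
    have := hs (X.schemeOld K) (X.fo β) hβ
    exact this
  · rintro ⟨s, hs⟩
    refine ⟨s, fun K β hβ => ?_⟩
    have := hs (X.schemeNew K) (X.fn β) hβ
    exact this

end Toric

end Pool.Agent.SIP
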