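import Pool.Agent.Helper15_SIP.X1
import Pool.Agent.Helper15_SIP.Tr
import Pool.Agent.Helper15_SIQ.Stmts

/-!
# MP_021b97_an, Q1, in the new presentation
-/

set_option autoImplicit false

namespace Pool.Agent.SIP

theorem X1_old : X1.old = SIU.X1 := rfl

theorem q1 (h : SIQ.Fin1Stmt) : ∃ T : X1.Current 0, ∀ w : Bool,
      X1.Positive w T ∧ X1.Closed T ∧ (∀ u ∈ X1.U, X1.LelongZero T u) ∧
        ∀ S : X1.Current 0, ¬ X1.Sharp w f1L T S := by
  obtain ⟨T, hT⟩ := h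
  have e : X1.co (X1.cn T) = T := X1.co_cn T
  refine ⟨X1.cn T, fun w => ?_⟩
  obtain ⟨h1, h2, h3, h4⟩ := hT w
  refine ⟨(X1.positive_iff w _).1 ?_, (X1.closed_iff _).1 ?_, fun u hu =>
    (X1.lelongZero_iff _ u).1 ?_, fun S hS => h4 (X1.co S) ?_⟩
  · rw [e]; exact h1
  · rw [e]; exact h2
  · rw [e]; exact h3 u hu
  · have := (X1.sharp_iff w f1L (X1.cn T) S).2 hS
    rw [e] at this
    exact this

end Pool.Agent.SIP
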