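import Pool.Agent.Helper15_SIP.X2
import Pool.Agent.Helper15_SIP.Tr
import Pool.Agent.Helper15_SIU.All

/-!
# MP_021b97_an, Q2, in the new presentation
-/

set_option autoImplicit false

namespace Pool.Agent.SIP

theorem X2_old : X2.old = SIU.X2 := rfl

theorem q2 : ∃ T : X2.Current 1, ∀ w : Bool,
      X2.Positive w T ∧ X2.Closed T ∧ (∀ u ∈ X2.U, X2.LelongZero T u) ∧
        X2.Sharp w flopL T (X2.neg T) ∧ ¬ X2.Positive w (X2.neg T) := by
  obtain ⟨T, hT⟩ := SIU.H15.finS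
  have e : X2.co (X2.cn T) = T := X2.co_cn T
  refine ⟨X2.cn T, fun w => ?_⟩
  obtain ⟨h1, h2, h3, h4, h5⟩ := hT w
  refine ⟨(X2.positive_iff w _).1 ?_, (X2.closed_iff _).1 ?_, fun u hu =>
    (X2.lelongZero_iff _ u).1 ?_, (X2.sharp_iff w flopL _ _).1 ?_, fun h => h5 ?_⟩
  · rw [e]; exact h1
  · rw [e]; exact h2
  · rw [e]; exact h3 u hu
  · rw [X2.co_neg, e]; exact h4
  · have := (X2.positive_iff w _).2 h
    rw [X2.co_neg, e] at this
    exact this

end Pool.Agent.SIP
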