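import Pool.Agent.Helper15_SIP.Defs

/-!
# MP_021b97_an: the example `X = P(O ⊕ O(-1) ⊕ O(-1)) × P¹` and its flop

Homogeneous coordinates `(s, t, p, q, v, y₀, y₁) = (z 0, …, z 6)`;
`(λ, κ, γ)` acts by `(λ s, λ t, λ⁻¹ κ p, λ⁻¹ κ q, κ v, γ y₀, γ y₁)`;
the flop exchanges `(s, t)` and `(p, q)`.
-/

set_option autoImplicit false

namespace Pool.Agent.SIP

/-- `|s|² + |t|²` -/
noncomputable def AA (z : Fin 7 → ℂ) : ℝ := ‖z 0‖ ^ 2 + ‖z 1‖ ^ 2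

/-- `(|s|² + |t|²) (|p|² + |q|²) + |v|²` -/
noncomputable def DD (z : Fin 7 → ℂ) : ℝ :=
  (‖z 0‖ ^ 2 + ‖z 1‖ ^ 2) * (‖z 2‖ ^ 2 + ‖z 3‖ ^ 2) + ‖z 4‖ ^ 2

/-- `|y₀|² + |y₁|²` -/
noncomputable def YY (z : Fin 7 → ℂ) : ℝ := ‖z 5‖ ^ 2 + ‖z 6‖ ^ 2

/-- `W × P¹`, `W = P(O ⊕ O(-1) ⊕ O(-1))` over `P¹` -/
noncomputable def X2 : Toric 7 3 4 where
  wt := ![![1, 0, 0], ![1, 0, 0], ![-1, 1, 0], ![-1, 1, 0], ![0, 1, 0], ![0, 0, 1], ![0, 0, 1]]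
  blk := ![0, 0, 1, 1, 1, 2, 2]
  one := ![1, 4, 6]
  crd := ![0, 2, 3, 5]
  A := ![AA, DD, YY]

/-- the lift `(s, p, q, y) ↦ (p, q, s, 1, 1, y, 1)` of the flop over the affine chart
`(s, p, q, y) ↦ (s, 1, p, q, 1, y, 1)` -/
noncomputable def flopL (x : Fin 4 → ℂ) : Fin 7 → ℂ := ![x 1, x 2, x 0, 1, 1, x 3, 1]

end Pool.Agent.SIP
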